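import Pool.Agent.Helper63.PH.Alg

/-! # Project PH, module ANC: the anchors -/

set_option autoImplicit false

namespace Pool.Agent.Helper71.PH

open Pool.Agent.Helper63.PH

open Pool.Agent.Helper63.PG hiding ci cj cl Bl isAnc anc near ng kap lab1 H1 tt Lab lab G3 Gm col
  AncS Vs UU LabF ColF
open Pool.Agent.Helper63.OC Pool.Agent.Helper24.OCM

private theorem dec_spec (hND : ∀ (G : SimpleGraph ℕ) (τ q : ℕ), ∃ p, NDec G τ q p)
    (G : SimpleGraph ℕ) (τ q : ℕ) : NDec (pre G τ) τ q (dec G τ q) := by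
  have h : ∃ p, NDec (pre G τ) τ q p := hND (pre G τ) τ q
  unfold dec
  rw [dif_pos h]
  exact h.choose_spec

/-- MODULE ANC -/
theorem hANC (hND : ∀ (G : SimpleGraph ℕ) (τ q : ℕ), ∃ p, NDec G τ q p)
    (hBL : ∀ (K : ℕ) (G : SimpleGraph ℕ) (v : ℕ), cr K G v ≤ 2 * Nat.log 2 (v + 1) ∧
      bl G v (cr K G v) = bl G v (cr K G v + 2) ∧ bl G v (cr K G v) ≤ Nat.log 2 (v + 1)) :
    ∀ (K : ℕ) (G : SimpleGraph ℕ), TauS (H1 K G) → AncS K G := by
  intro K G hT
  constructor
  · intro v hv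
    obtain ⟨-, h2, -⟩ := hT.1 v hv
    obtain ⟨h4, -⟩ := dec_spec hND G (tt K G v) (2 * cr K G v)
    obtain ⟨-, h6, h7⟩ := h4 (fn (H1 K G) v) h2
    exact ⟨h6, (nr_pre le_rfl).1 h7⟩
  · intro u v huv hadj hlab hnc
    obtain ⟨hu, hv, htau⟩ := hT.2 u v huv hadj hlab
    obtain ⟨⟨hwu, hwadj⟩, hwt, htu⟩ := hT.1 u hu
    obtain ⟨⟨hwv', hwadj'⟩, hwt', htv⟩ := hT.1 v hv
    have htt : tt K G u = tt K G v := htau
    have e1 : lab1 K G u = lab1 K G v := hadj.2
    have e2 : lab1 K G u = lab1 K G (fn (H1 K G) u) := hwadj.2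
    have e3 : lab1 K G v = lab1 K G (fn (H1 K G) v) := hwadj'.2
    have c1 : cr K G u = cr K G v := (Prod.ext_iff.1 e1).1
    have c2 : cr K G u = cr K G (fn (H1 K G) u) := (Prod.ext_iff.1 e2).1
    have c3 : cr K G v = cr K G (fn (H1 K G) v) := (Prod.ext_iff.1 e3).1
    have b1 : bl G u (cr K G u) = bl G v (cr K G v) := (Prod.ext_iff.1 e1).2
    have b2 : bl G u (cr K G u) = bl G (fn (H1 K G) u) (cr K G (fn (H1 K G) u)) :=
      (Prod.ext_iff.1 e2).2
    have b3 : bl G v (cr K G v) = bl G (fn (H1 K G) v) (cr K G (fn (H1 K G) v)) :=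
      (Prod.ext_iff.1 e3).2
    have hgu : G.Adj u (fn (H1 K G) u) := hwadj.1
    have hgv : G.Adj v (fn (H1 K G) v) := hwadj'.1
    have hguv : G.Adj u v := hadj.1
    have hbl := (hBL K G v).2.1
    rw [← c2] at b2
    rw [← c3] at b3
    set w := fn (H1 K G) u with hw
    set w' := fn (H1 K G) v with hw'
    set r := cr K G v with hr
    rw [c1] at b1 b2 c2
    have hwv : w < v := hwu.trans huv
    -- the balls
    have s1 : bal G w r ⊆ bal G v (r + 2) := by
      intro x hx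
      have hx' : nr G w w x r := hx
      have h1 : nr G v v u 1 := nr_adj hguv.symm le_rfl huv.le
      have h2 : nr G v u w 1 := nr_adj hgu huv.le hwv.le
      have h3 : nr G v w x r := nr_time hx' hwv.le
      have h4 := nr_trans (nr_trans h1 h2) h3
      exact nr_mono h4 (by omega)
    have s2 : bal G w' r ⊆ bal G v (r + 2) := by
      intro x hx
      have hx' : nr G w' w' x r := hx
      have h1 : nr G v v w' 1 := nr_adj hgv le_rfl hwv'.le
      have h3 : nr G v w' x r := nr_time hx' hwv'.le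
      have h4 := nr_trans h1 h3
      exact nr_mono h4 (by omega)
    have hpos : ∀ a s, (bal G a s).ncard ≠ 0 := fun a s =>
      (Set.ncard_pos (bal_fin G a s)).2 ⟨a, self_mem_bal G a s⟩ |>.ne'
    have n1 : 2 ^ bl G v r ≤ (bal G w r).ncard := by
      rw [← b1, b2]
      exact Nat.pow_log_le_self 2 (hpos w r)
    have n2 : 2 ^ bl G v r ≤ (bal G w' r).ncard := by
      rw [b3]
      exact Nat.pow_log_le_self 2 (hpos w' r)
    have n3 : (bal G v (r + 2)).ncard < 2 ^ (bl G v r + 1) := by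
      rw [hbl]
      exact Nat.lt_pow_succ_log_self (by norm_num) _
    have hnd : ¬ Disjoint (bal G w r) (bal G w' r) := by
      intro hd
      have h1 := Set.ncard_union_eq hd (bal_fin G w r) (bal_fin G w' r)
      have h2 := Set.ncard_le_ncard (Set.union_subset s1 s2) (bal_fin G v (r + 2))
      rw [pow_succ] at n3
      omega
    obtain ⟨x, hx1, hx2⟩ := Set.not_disjoint_iff.1 hnd
    have hx1' : nr G w w x r := hx1
    have hx2' : nr G w' w' x r := hx2
    have hwt2 : w ≤ tt K G v := by rw [← htt]; exact hwt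
    have hwt3 : w' ≤ tt K G v := hwt'
    have hnr : nr G (tt K G v) w w' (2 * r) := by
      have h1 := nr_trans (nr_time hx1' hwt2) (nr_symm (nr_time hx2' hwt3))
      exact nr_mono h1 (by omega)
    obtain ⟨-, h5⟩ := dec_spec hND G (tt K G v) (2 * r)
    have h6 := h5 w hwt2 w' hwt3 ((nr_pre le_rfl).2 hnr)
    have hnc' : (dec G (tt K G u) (2 * cr K G u) w).1 = (dec G (tt K G v) (2 * r) w').1 := hnc
    rw [htt, c1] at hnc'
    have h7 := h6 hnc'
    change (dec G (tt K G u) (2 * cr K G u) w).2 = (dec G (tt K G v) (2 * r) w').2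
    rw [htt, c1]
    exact h7

end Pool.Agent.Helper71.PH
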